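import Mathlib

set_option autoImplicit false

namespace Pool.Agent.Results.MP_2c9be0_lc.Separation

open Matrix

section defs
variable {S A : Type} [Semiring S]

/-- `f` is computed by a finite weighted automaton. -/
def IsWA (f : List A → S) : Prop :=
  ∃ (n : ℕ) (α β : Fin n → S) (M : A → Matrix (Fin n) (Fin n) S),
    ∀ w, f w = α ⬝ᵥ ((w.map M).prod *ᵥ β)

def Lam (f : List A → S) (Q : Finset (List A)) (T : Set (List A)) :
    Set ((Q → S) × (Q → A → Q → S)) :=
  {l | (∀ t ∈ T, f t = ∑ q : Q, l.1 q * f (q.1 ++ t)) ∧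
    ∀ (q : Q) (a : A), ∀ t ∈ T, f (q.1 ++ a :: t) = ∑ p : Q, l.2 q a p * f (p.1 ++ t)}

def Guessable (f : List A → S) : Prop :=
  ∃ Q T : Finset (List A), Q.Nonempty ∧ Lam f Q T = Lam f Q Set.univ ∧
    (Lam f Q Set.univ).Nonempty

def StronglyGuessable (f : List A → S) : Prop :=
  Guessable f ∧ ∀ Q : Finset (List A), Q.Nonempty →
    ∃ T : Finset (List A), Lam f Q T = Lam f Q Set.univ

def Gam (f : List A → S) (Q : Set (List A)) (T : Finset (List A)) :
    Set ((T → S) × (T → A → T → S)) :=
  {g | (∀ w ∈ Q, f w = ∑ t : T, f (w ++ t.1) * g.1 t) ∧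
    ∀ (t : T) (a : A), ∀ w ∈ Q, f (w ++ a :: t.1) = ∑ s : T, f (w ++ s.1) * g.2 s a t}

def CoGuessable (f : List A → S) : Prop :=
  ∃ Q T : Finset (List A), T.Nonempty ∧ Gam f Q T = Gam f Set.univ T ∧
    (Gam f Set.univ T).Nonempty

def StronglyCoGuessable (f : List A → S) : Prop :=
  CoGuessable f ∧ ∀ T : Finset (List A), T.Nonempty →
    ∃ Q : Finset (List A), Gam f Q T = Gam f Set.univ T

end defs

def Mon : Submonoid (Function.End ℕ) where
  carrier := {g | (∃ c, ∀ n, g n = c) ∨ (∀ n, g n = n) ∨ (∀ n, g n = n + 1) ∨ ∀ n, n + 2 ≤ g n}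
  one_mem' := Or.inr (Or.inl fun _ => rfl)
  mul_mem' := by
    intro g h hg hh
    have e : ∀ n, (g * h) n = g (h n) := fun _ => rfl
    simp only [Set.mem_setOf_eq, e]
    rcases hh with ⟨c, hc⟩ | hh | hh | hh
    · exact Or.inl ⟨g c, fun n => by rw [hc]⟩
    · simp only [hh]
      exact hg
    · rcases hg with ⟨c, hc⟩ | hg | hg | hg
      · exact Or.inl ⟨c, fun n => hc _⟩
      · exact Or.inr (Or.inr (Or.inl fun n => by rw [hg, hh]))
      · exact Or.inr (Or.inr (Or.inr fun n => by rw [hg, hh]))
      · exact Or.inr (Or.inr (Or.inr fun n => by have := hg (h n); have := hh n; omega))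
    · rcases hg with ⟨c, hc⟩ | hg | hg | hg
      · exact Or.inl ⟨c, fun n => hc _⟩
      · exact Or.inr (Or.inr (Or.inr fun n => by rw [hg]; exact hh n))
      · exact Or.inr (Or.inr (Or.inr fun n => by rw [hg]; have := hh n; omega))
      · exact Or.inr (Or.inr (Or.inr fun n => by have := hg (h n); have := hh n; omega))

abbrev SS := SetSemiring Mon

def k (n : ℕ) : Mon := ⟨fun _ => n, Or.inl ⟨n, fun _ => rfl⟩⟩
def c (n : ℕ) : SS := Set.up {k n}
def x : SS := Set.up {⟨fun n => n + 1, Or.inr (Or.inr (Or.inl fun _ => rfl))⟩}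
def y (N : ℕ) : SS := Set.up {⟨fun n => if n < N then n + 2 else n + 3,
  Or.inr (Or.inr (Or.inr fun n => by dsimp only; split_ifs <;> omega))⟩}

lemma key (l : SS) (n m : ℕ) : l * c n = c m ↔ l.down.Nonempty ∧ ∀ g ∈ l.down, g.1 n = m := by
  have e : ∀ g : Mon, g * k n = k m ↔ g.1 n = m := fun g =>
    ⟨fun h => congrFun (congrArg Subtype.val h) 0, fun h => Subtype.ext (funext fun _ => h)⟩
  have : l * c n = c m ↔ (fun g => g * k n) '' l.down = {k m} := by
    rw [SetSemiring.mul_def, c, c, Set.up.apply_eq_iff_eq]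
    simp [Set.mul_singleton]
  rw [this, Set.eq_singleton_iff_nonempty_unique_mem, Set.image_nonempty, Set.forall_mem_image]
  simp only [e]

lemma hx (n : ℕ) : x * c n = c (n + 1) := by
  rw [key]
  simp [x]

lemma hy (N n : ℕ) : y N * c n = c (n + 2) ↔ n < N := by
  rw [key]
  simp [y]

lemma rig (l : SS) (j : ℕ) (hj : j < 2) (h0 : l * c 0 = c j) (h1 : l * c 1 = c (j + 1)) (n : ℕ) :
    l * c n = c (n + j) := by
  rw [key] at h0 h1 ⊢
  refine ⟨h0.1, fun g hg => ?_⟩
  have a := h0.2 g hg
  have b := h1.2 g hg
  rcases g.2 with ⟨c, h⟩ | h | h | h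
  · rw [h] at a b
    omega
  · rw [h] at a ⊢
    omega
  · rw [h] at a ⊢
    omega
  · have := h 0
    omega

lemma xpow (n : ℕ) : x ^ n * c 0 = c n := by
  induction n with
  | zero => simp
  | succ n ih => rw [pow_succ', mul_assoc, ih, hx]

def Q2 : Finset (List Unit) := {[], [()]}
def e2 : Q2 := ⟨[], by simp [Q2]⟩

open MulOpposite in
theorem result :
    (∃ (S : Type) (_ : Semiring S) (A : Type) (_ : Fintype A) (f : List A → S),
      IsWA f ∧ Guessable f ∧ ¬ StronglyGuessable f) ∧
    ∃ (S : Type) (_ : Semiring S) (A : Type) (_ : Fintype A) (f : List A → S),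
      IsWA f ∧ CoGuessable f ∧ ¬ StronglyCoGuessable f := by
  have len2 : ∀ q : Q2, q ≠ e2 → q.1.length = 1 := by
    rintro ⟨q, hq⟩ h
    simp only [Q2, Finset.mem_insert, Finset.mem_singleton] at hq
    rcases hq with rfl | rfl
    · exact absurd rfl h
    · rfl
  constructor
  · refine ⟨SS, inferInstance, Unit, inferInstance, fun w => c w.length,
      ⟨1, fun _ => 1, fun _ => c 0, fun _ => Matrix.of fun _ _ => x, fun w => ?_⟩,
      ⟨{[]}, {[], [()]}, by simp, ?_, ⟨(fun _ => 1, fun _ _ _ => x), ?_⟩⟩, fun h => ?_⟩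
    · induction w with
      | nil => simp [dotProduct]
      | cons a w ih =>
        dsimp only at ih ⊢
        rw [List.map_cons, List.prod_cons, ← mulVec_mulVec, List.length_cons, ← hx, ih]
        simp [dotProduct, mulVec]
    · ext l
      refine ⟨fun h => ⟨fun t _ => ?_, fun q a t _ => ?_⟩,
        fun h => ⟨fun t _ => h.1 t trivial, fun q a t _ => h.2 q a t trivial⟩⟩
      · have a0 := h.1 [] (by simp)
        have a1 := h.1 [()] (by simp)
        simp only [Finset.univ_unique, Finset.sum_singleton] at a0 a1 ⊢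
        exact (rig _ 0 (by omega) a0.symm a1.symm _).symm
      · obtain ⟨q, hq⟩ := q
        obtain rfl := Finset.mem_singleton.1 hq
        have a0 := h.2 ⟨[], hq⟩ a [] (by simp)
        have a1 := h.2 ⟨[], hq⟩ a [()] (by simp)
        simp only [Finset.univ_unique, Finset.sum_singleton] at a0 a1 ⊢
        exact (rig _ 1 (by omega) a0.symm a1.symm _).symm
    · refine ⟨fun t _ => by simp, ?_⟩
      rintro ⟨q, hq⟩ a t -
      obtain rfl := Finset.mem_singleton.1 hq
      simp [hx]
    · obtain ⟨T, hT⟩ := h.2 Q2 ⟨_, e2.2⟩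
      let N := T.sup List.length + 1
      have s : ∀ (u : SS) (t : List Unit),
          ∑ p : Q2, (if p = e2 then u else 0) * c (p.1 ++ t).length = u * c t.length := by
        intro u t
        rw [Fintype.sum_eq_single e2 fun p hp => by simp [hp]]
        simp [e2]
      have m : ((fun p => if p = e2 then 1 else 0, fun q _ p => if p = e2 then
          (if q = e2 then x else y N) else 0) : (Q2 → SS) × (Q2 → Unit → Q2 → SS)) ∈
          Lam (fun w => c w.length) Q2 T := by
        refine ⟨fun t _ => by simp only [s, one_mul], fun q a t ht => ?_⟩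
        simp only [s]
        split_ifs with hq
        · subst hq
          simp [e2, hx]
        · rw [(hy N _).2 (Nat.lt_succ_of_le (Finset.le_sup (f := List.length) ht))]
          simp only [List.length_append, len2 q hq, List.length_cons]
          congr 1
          omega
      rw [hT] at m
      have := m.2 ⟨[()], by simp [Q2]⟩ () (List.replicate N ()) trivial
      simp only [s] at this
      rw [if_neg (by simp [e2])] at this
      simp only [List.length_append, List.length_cons, List.length_replicate, List.length_nil,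
        show 0 + 1 + (N + 1) = N + 2 by omega] at this
      exact lt_irrefl _ ((hy N N).1 this.symm)
  · refine ⟨SSᵐᵒᵖ, inferInstance, Unit, inferInstance, fun w => op (c w.length),
      ⟨1, fun _ => op (c 0), fun _ => 1, fun _ => Matrix.of fun _ _ => op x, fun w => ?_⟩,
      ⟨{[], [()]}, {[]}, by simp, ?_, ⟨(fun _ => 1, fun _ _ _ => op x), ?_⟩⟩, fun h => ?_⟩
    · have : ((w.map fun _ => (Matrix.of fun _ _ => op x : Matrix (Fin 1) (Fin 1) SSᵐᵒᵖ)).prod *ᵥ
          fun _ => 1) 0 = op x ^ w.length := by
        induction w with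
        | nil => simp
        | cons a w ih =>
          rw [List.map_cons, List.prod_cons, ← mulVec_mulVec, List.length_cons, pow_succ', ← ih]
          simp [dotProduct, mulVec]
      simp only [dotProduct, Finset.univ_unique, Finset.sum_singleton, Fin.default_eq_zero, this]
      rw [← op_pow, ← op_mul, xpow]
    · ext l
      refine ⟨fun h => ⟨fun t _ => ?_, fun q a t _ => ?_⟩,
        fun h => ⟨fun t _ => h.1 t trivial, fun q a t _ => h.2 q a t trivial⟩⟩
      · have a0 := congrArg unop (h.1 [] (by simp))
        have a1 := congrArg unop (h.1 [()] (by simp))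
        apply unop_injective
        simp only [Finset.univ_unique, Finset.sum_singleton, unop_mul, unop_op] at a0 a1 ⊢
        simpa using (rig _ 0 (by omega) a0.symm a1.symm _).symm
      · obtain ⟨q, hq⟩ := q
        obtain rfl := Finset.mem_singleton.1 hq
        have a0 := congrArg unop (h.2 ⟨[], hq⟩ a [] (by simp))
        have a1 := congrArg unop (h.2 ⟨[], hq⟩ a [()] (by simp))
        apply unop_injective
        simp only [Finset.univ_unique, Finset.sum_singleton, unop_mul, unop_op] at a0 a1 ⊢
        simpa using (rig _ 1 (by omega) a0.symm a1.symm _).symm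
    · refine ⟨fun t _ => by simp, ?_⟩
      rintro ⟨q, hq⟩ a t -
      obtain rfl := Finset.mem_singleton.1 hq
      simp [← op_mul, hx]
    · obtain ⟨T, hT⟩ := h.2 Q2 ⟨_, e2.2⟩
      let N := T.sup List.length + 1
      have s : ∀ (u : SS) (t : List Unit), ∑ p : Q2, op (c (t ++ p.1).length) *
          (if p = e2 then op u else 0) = op (u * c t.length) := by
        intro u t
        rw [Fintype.sum_eq_single e2 fun p hp => by simp [hp]]
        simp [e2]
      have m : ((fun p => if p = e2 then op 1 else 0, fun p _ q => if p = e2 then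
          op (if q = e2 then x else y N) else 0) : (Q2 → SSᵐᵒᵖ) × (Q2 → Unit → Q2 → SSᵐᵒᵖ)) ∈
          Gam (fun w => op (c w.length)) T Q2 := by
        refine ⟨fun t _ => by simp only [s, one_mul], fun q a t ht => ?_⟩
        simp only [s]
        split_ifs with hq
        · subst hq
          simp [e2, hx]
        · rw [(hy N _).2 (Nat.lt_succ_of_le (Finset.le_sup (f := List.length) ht))]
          simp only [List.length_append, len2 q hq, List.length_cons]
      rw [hT] at m
      have := m.2 ⟨[()], by simp [Q2]⟩ () (List.replicate N ()) trivial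
      simp only [s] at this
      rw [if_neg (by simp [e2])] at this
      simp only [List.length_append, List.length_cons, List.length_replicate, List.length_nil,
        show N + (0 + 1 + 1) = N + 2 by omega] at this
      exact lt_irrefl _ ((hy N N).1 (op_injective this).symm)

end Pool.Agent.Results.MP_2c9be0_lc.Separation
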